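import Pool.Agent.H547U3.Cls

/-!
# Linear space and exponential time over sets of Boolean functions

The classes are represented by one-dimensional cellular automata with a constant number of bits
per cell whose local rule is computed by circuits over `B` (`DCA`, `NCA`: deterministic and
nondeterministic automata with `S n` cells and time `T n`): linear space by `n` cells and unlimited
time, exponential time by `2 ^ (c n)` cells and time `2 ^ (c n)`.
-/

set_option autoImplicit false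

namespace Pool.Agent.Results.MP_b7da94_lc.GateSetTrichotomy

open Pool.Agent.H547R6 Pool.Agent.H547R7 Pool.Agent.H547R8 Pool.Agent.H547R9
open Pool.Agent.H547U3

/-- deterministic linear space over `B` -/
def DLBA (B : Set BFun) : Set (Set (List Bool)) := DCA B (fun n => n) (fun _ => ⊤)

/-- nondeterministic linear space over `B` -/
def LBA (B : Set BFun) : Set (Set (List Bool)) := NCA B (fun n => n) (fun _ => ⊤)

/-- deterministic time `2 ^ O(n)` over `B` -/
def E (B : Set BFun) : Set (Set (List Bool)) :=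
  ⋃ c : ℕ, DCA B (fun n => 2 ^ (c * n)) (fun n => ((2 ^ (c * n) : ℕ) : ℕ∞))

/-- nondeterministic time `2 ^ O(n)` over `B` -/
def NE (B : Set BFun) : Set (Set (List Bool)) :=
  ⋃ c : ℕ, NCA B (fun n => 2 ^ (c * n)) (fun n => ((2 ^ (c * n) : ℕ) : ℕ∞))

/-- **The chain DLBA, LBA, E, NE over gate sets.** -/
theorem result (B : Set BFun) :
    (B ⊆ Mon → LBA B = DLBA B ∧ NE B = E B) ∧
    (B ⊆ Mon → ¬ B ⊆ Aff → ¬ B ⊆ Conj → ¬ B ⊆ Disj →
      DLBA B = DLBA Set.univ ∧ LBA B = DLBA Set.univ ∧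
      E B = E Set.univ ∧ NE B = E Set.univ) ∧
    (¬ B ⊆ Mon → ¬ B ⊆ Aff →
      DLBA B = DLBA Set.univ ∧ LBA B = LBA Set.univ ∧
      E B = E Set.univ ∧ NE B = NE Set.univ) := by
  have h1 : ¬ B ⊆ Aff → ¬ B ⊆ Conj → ¬ B ⊆ Disj → DLBA B = DLBA Set.univ ∧ E B = E Set.univ :=
    fun hA hC hD => ⟨det_all B hA hC hD _ _, Set.iUnion_congr fun c => det_all B hA hC hD _ _⟩
  have h2 : B ⊆ Mon → LBA B = DLBA B ∧ NE B = E B :=
    fun hM => ⟨nd_mon B hM _ _, Set.iUnion_congr fun c => nd_mon B hM _ _⟩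
  refine ⟨h2, fun hM hA hC hD => ?_, fun hM hA => ?_⟩
  · obtain ⟨e1, e2⟩ := h1 hA hC hD
    obtain ⟨e3, e4⟩ := h2 hM
    exact ⟨e1, e3.trans e1, e2, e4.trans e2⟩
  · obtain ⟨e1, e2⟩ := h1 hA (fun h => hM (h.trans conj_mon)) (fun h => hM (h.trans disj_mon))
    exact ⟨e1, nd_all B hM hA _ _, e2, Set.iUnion_congr fun c => nd_all B hM hA _ _⟩

end Pool.Agent.Results.MP_b7da94_lc.GateSetTrichotomy
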