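import Pool.Agent.H622R2.Lba.Final

/-!
# How many oracles make `DLBA` and `NE` equal?

For every gauge `f`, the set of the oracles `A` with `DLBA^A = NE^A` is a null set for `f` if and
only if for every `ε > 0` there are infinitely many `N` with `f N ≤ N ^ ε`. The same holds for every
set of oracles between `{A | NE^A ⊆ DLBA^A}` and `{A | P^A ⊆ LBA^A}`.
-/

namespace Pool.Agent.Results.MP_b7da94_lc.GaugeThreshold

open Pool.Agent.NPC Pool.Agent.H620R2.Gauge Pool.Agent.H622R2.Exp Pool.Agent.H622R2.Lba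
open Filter (atTop)

theorem result (f : ℕ → ℝ) :
    (∀ O : Set Oracle,
      (∀ A : Oracle, (∀ L, InNTime Lin A L → IsDLBA A L) → A ∈ O) →
      (∀ A ∈ O, ∀ L, IsP A L → IsLBA A L) →
      (Null f O ↔ ∀ ε : ℝ, 0 < ε → ∃ᶠ N : ℕ in atTop, f N ≤ (N : ℝ) ^ ε)) ∧
    (Null f {A : Oracle | ∀ L, IsDLBA A L ↔ InNTime Lin A L} ↔
      ∀ ε : ℝ, 0 < ε → ∃ᶠ N : ℕ in atTop, f N ≤ (N : ℝ) ^ ε) :=
  resLba f

end Pool.Agent.Results.MP_b7da94_lc.GaugeThreshold
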